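import Pool.Agent.Q54.TK.All

/-!
# MP_e8b69e_co, Q1: the answer is yes

For every `k ≥ 1` there is `s0` such that for every `s > s0` every `k`-graph with matching number `s` and
covering number `s k` has at most `C(s k + k - 1, k)` edges.
-/

set_option autoImplicit false

namespace Pool.Agent.Results.MP_e8b69e_co.AllUniformities

/-- `F` is a `k`-graph on the vertex set `Fin n` -/
def IsKGraph {n : ℕ} (k : ℕ) (F : Finset (Finset (Fin n))) : Prop := ∀ e ∈ F, e.card = k

/-- the matching number of `F` is `s`: `s` is the largest number of pairwise disjoint edges -/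
def MatchingNumberIs {n : ℕ} (F : Finset (Finset (Fin n))) (s : ℕ) : Prop :=
  IsGreatest {m : ℕ | ∃ M : Finset (Finset (Fin n)),
    M ⊆ F ∧ (∀ e ∈ M, ∀ f ∈ M, e ≠ f → Disjoint e f) ∧ M.card = m} s

/-- the covering number of `F` is `t`: `t` is the least size of a set which meets every edge -/
def CoveringNumberIs {n : ℕ} (F : Finset (Finset (Fin n))) (t : ℕ) : Prop :=
  IsLeast {m : ℕ | ∃ Y : Finset (Fin n), (∀ e ∈ F, (e ∩ Y).Nonempty) ∧ Y.card = m} t

open Pool.Agent.Q54.TK

theorem result : ∀ k : ℕ, 1 ≤ k → ∃ s0 : ℕ, ∀ s : ℕ, s0 < s →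
    ∀ (n : ℕ) (F : Finset (Finset (Fin n))), IsKGraph k F → MatchingNumberIs F s →
      CoveringNumberIs F (s * k) → F.card ≤ (s * k + k - 1).choose k := by
  intro k hk
  rcases Nat.lt_or_ge 1 k with hk2 | hk1
  · obtain ⟨ζ, hζ, s0, H⟩ := t_FIN k hk2
    refine ⟨s0, fun s hs n F hF hnu htau => ?_⟩
    have hs1 : 1 ≤ s := by omega
    have hnu' : NuLe F s := fun M hM hPD => hnu.2 ⟨M, hM, hPD, rfl⟩
    have hcov : ∀ Y : Finset (Fin n), (∀ e ∈ F, ¬ Disjoint e Y) → s * k ≤ Y.card := by
      intro Y hY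
      refine htau.2 ⟨Y, fun e he => ?_, rfl⟩
      rw [Finset.nonempty_iff_ne_empty]
      intro h0
      exact hY e he (Finset.disjoint_iff_inter_eq_empty.mpr h0)
    -- robustness with zero loss
    have hrb0 : Rb k s 0 F := by
      refine t_COV (Fin n) F k s 0 hk hF ?_
      intro Y hY
      have := hcov Y hY
      have h2 : ((s * k : ℕ) : ℝ) ≤ (Y.card : ℝ) := by exact_mod_cast this
      push_cast at h2
      linarith [h2, mul_comm (s : ℝ) (k : ℝ)]
    have hres : Res k s F := by
      intro T hT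
      obtain ⟨M, hMF, hPD, hMT, hM⟩ := hrb0 T
      refine ⟨M, hMF, hPD, hMT, le_antisymm (hnu' M hMF hPD) ?_⟩
      have h1 : k * s ≤ k * M.card + T.card := by
        have : (k : ℝ) * s ≤ k * M.card + T.card := by linarith
        exact_mod_cast this
      by_contra hlt
      push Not at hlt
      have h2 : k * (M.card + 1) ≤ k * s := Nat.mul_le_mul_left k hlt
      have h3 : k * (M.card + 1) = k * M.card + k := by ring
      omega
    have hyp : Hyp k s F := ⟨hk2, hs1, hF, hnu', hres⟩
    have hrb : Rb k s ζ F := by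
      intro T
      obtain ⟨M, hMF, hPD, hMT, hM⟩ := hrb0 T
      refine ⟨M, hMF, hPD, hMT, ?_⟩
      have : 0 ≤ ζ * (s : ℝ) := by positivity
      linarith
    have := H s hs.le (Fin n) F hyp hrb
    rwa [mul_comm s k]
  · have hk1' : k = 1 := by omega
    subst hk1'
    refine ⟨0, fun s _ n F hF hnu _ => ?_⟩
    have hPD : ∀ e ∈ F, ∀ f ∈ F, e ≠ f → Disjoint e f := by
      intro e he f hf hef
      obtain ⟨a, rfl⟩ := Finset.card_eq_one.mp (hF e he)
      obtain ⟨b, rfl⟩ := Finset.card_eq_one.mp (hF f hf)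
      rw [Finset.disjoint_singleton]
      rintro rfl
      exact hef rfl
    have := hnu.2 ⟨F, subset_rfl, hPD, rfl⟩
    simpa using this

end Pool.Agent.Results.MP_e8b69e_co.AllUniformities
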